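import Pool.Agent.H40CS.PlanarMain
import Pool.Agent.H40CS.ExactDivisors

/-!
# Planar functions between arbitrary finite groups

Let `φ : G → N` be planar, `|G| = |N| = v`. Then `v` is odd (classical). Let `w` be a prime
dividing `v`, let `h` be an element of order `w` of `N`, and let `ρ` be the representation of `N`
induced from a nontrivial character of the cyclic group `⟨h⟩`. It has no fixed vectors, so
`M = ∑ ρ(φ(y))` satisfies `M M* = v`, and its degree `v / w` is odd. Taking determinants in a ring
of Witt vectors, on which complex conjugation acts as a power of Frobenius when `w` divides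
`l ^ i + 1`, one gets that `l` divides `v` to an even power. No quotient of `N` is needed.
-/

namespace Pool.Agent.Results.MP_cd141f_co.ArbitraryGroups

open Finset Filter Pool.Agent.H40CS

/-- There is a planar function between two groups of order `v`
(`Pool.Agent.H40CS.IsPlanarFunction`). -/
def HasPlanar (v : ℕ) : Prop :=
  ∃ (G N : Type) (_ : Group G) (_ : Group N) (φ : G → N), Finite G ∧ Finite N ∧
    Nat.card G = v ∧ Nat.card N = v ∧ IsPlanarFunction φ

theorem criterion {G N : Type} [Group G] [Group N] [Finite G] [Finite N] (φ : G → N)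
    (hcard : Nat.card G = Nat.card N) (hφ : IsPlanarFunction φ) :
    Odd (Nat.card G) ∧ ∀ w l i : ℕ, w.Prime → l.Prime → w ∣ Nat.card G → w ∣ l ^ i + 1 →
      Even ((Nat.card G).factorization l) := by
  refine ⟨odd_of_planar hφ, ?_⟩
  intro w l i hw hl hwv hwl
  by_cases hi : i = 0
  · exfalso
    rw [hi, pow_zero] at hwl
    have h2 : w = 2 := by
      have := Nat.le_of_dvd (by norm_num) hwl
      have := hw.two_le
      omega
    rw [h2] at hwv
    have := odd_of_planar hφ
    rw [← Nat.not_even_iff_odd] at this
    exact this (even_iff_two_dvd.2 hwv)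
  · exact planar_criterion hcard hφ hw hl hwv hi hwl

theorem DZ_HasPlanar : DZ HasPlanar := by
  apply DZ_of_dvd
  intro w hw
  apply DZ_exact w hw.two_le
  rintro v ⟨hwv, G, N, _, _, φ, _, _, hG, hN, hφ⟩ l hl hwl hlv
  have h1 := (criterion φ (by rw [hG, hN]) hφ).2 w l 1 hw hl (by rw [hG]; exact hwv)
    (by rw [pow_one]; exact hwl)
  rw [hG] at h1
  have hv0 : v ≠ 0 := by
    rw [← hG]
    exact Nat.card_pos.ne'
  rw [hl.pow_dvd_iff_le_factorization hv0]
  have h2 : 1 ≤ v.factorization l := (hl.dvd_iff_one_le_factorization hv0).1 hlv
  obtain ⟨c, hc⟩ := h1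
  omega

/-- **Planar functions between arbitrary finite groups.** Let `φ : G → N` be a planar function
between finite groups of the same order `v`. Then `v` is odd, and if `w` and `l` are primes such
that `w` divides `v` and some `l ^ i + 1`, then `l` divides `v` to an even power. Consequently the
orders of groups which carry planar functions have natural density zero. -/
theorem result :
    (∀ (G N : Type) [Group G] [Group N] [Finite G] [Finite N] (φ : G → N),
      Nat.card G = Nat.card N → IsPlanarFunction φ →
      Odd (Nat.card G) ∧ ∀ w l i : ℕ, w.Prime → l.Prime → w ∣ Nat.card G → w ∣ l ^ i + 1 →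
        Even ((Nat.card G).factorization l)) ∧
    Tendsto (fun X : ℕ => ({v : ℕ | v < X ∧ HasPlanar v}.ncard : ℝ) / X) atTop (nhds 0) :=
  ⟨fun _ _ _ _ _ _ φ hcard hφ => criterion φ hcard hφ, tendsto_of_DZ DZ_HasPlanar⟩

end Pool.Agent.Results.MP_cd141f_co.ArbitraryGroups
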